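import Pool.Agent.H85.SC.Targets

/-!
# The complexity of the synthesis property: module CNB
-/

namespace Pool.Agent.H18.SC

open Pool.Agent.H85.SC

theorem pr_ge_five (m j : ℕ) : 5 ≤ pr m j := by
  have h := pr_gt m j
  have h2 : 2 ^ 2 ≤ 2 ^ (m + 2 + j) := Nat.pow_le_pow_right (by norm_num) (by omega)
  omega

theorem pr_half (m j : ℕ) : 0 < (pr m j - 1) / 2 ∧ pr m j ≤ 3 * ((pr m j - 1) / 2) := by
  have h5 := pr_ge_five m j
  have hodd : pr m j % 2 = 1 := by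
    rcases (pr_prime m j).eq_two_or_odd with h | h
    · omega
    · exact h
  omega

theorem PP_pos (m : ℕ) : 0 < PP m := by
  have h0 := (pr_prime m 0).pos
  have h1 := (pr_prime m 1).pos
  have h2 := (pr_prime m 2).pos
  unfold PP
  positivity

theorem NN_pos (r : ℕ) : 0 < NN r := by
  have h : 0 < QQ r := by
    unfold QQ
    refine Nat.mul_pos (by positivity) (Finset.prod_pos fun j _ => PP_pos j)
  unfold NN
  positivity

theorem cnb (h : T_DIV) : T_CNB := by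
  intro n i hv
  obtain ⟨hd, -⟩ := h n i hv
  obtain ⟨k, hk⟩ := hd
  obtain ⟨a0, b0⟩ := pr_half (lvl n i) 0
  obtain ⟨a1, b1⟩ := pr_half (lvl n i) 1
  obtain ⟨a2, b2⟩ := pr_half (lvl n i) 2
  have hq : 0 < (pr (lvl n i) 0 - 1) / 2 * ((pr (lvl n i) 1 - 1) / 2) *
      ((pr (lvl n i) 2 - 1) / 2) := Nat.mul_pos (Nat.mul_pos a0 a1) a2
  have hD : 0 < 4 ^ (Nat.size n + 1) * PP (lvl n i) :=
    Nat.mul_pos (by positivity) (PP_pos _)
  have hN := NN_pos (slot n i)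
  have hk0 : 0 < k := by
    rcases Nat.eq_zero_or_pos k with h0 | h0
    · rw [h0, mul_zero] at hk
      omega
    · exact h0
  have hdiv : NN (slot n i) / (4 ^ (Nat.size n + 1) * PP (lvl n i)) = k := by
    rw [hk]
    exact Nat.mul_div_cancel_left _ hD
  have hcnt : cnt n i = k * ((pr (lvl n i) 0 - 1) / 2 * ((pr (lvl n i) 1 - 1) / 2) *
      ((pr (lvl n i) 2 - 1) / 2)) := by
    unfold cnt
    rw [hdiv]
  have hbound : PP (lvl n i) ≤ 27 * ((pr (lvl n i) 0 - 1) / 2 * ((pr (lvl n i) 1 - 1) / 2) *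
      ((pr (lvl n i) 2 - 1) / 2)) := by
    unfold PP
    calc pr (lvl n i) 0 * pr (lvl n i) 1 * pr (lvl n i) 2
        ≤ (3 * ((pr (lvl n i) 0 - 1) / 2)) * (3 * ((pr (lvl n i) 1 - 1) / 2)) *
          (3 * ((pr (lvl n i) 2 - 1) / 2)) :=
          Nat.mul_le_mul (Nat.mul_le_mul b0 b1) b2
      _ = _ := by ring
  generalize (pr (lvl n i) 0 - 1) / 2 * ((pr (lvl n i) 1 - 1) / 2) *
      ((pr (lvl n i) 2 - 1) / 2) = q at hq hcnt hbound ⊢
  have hqR : (0 : ℝ) < (q : ℝ) := by exact_mod_cast hq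
  have hkR : (0 : ℝ) < (k : ℝ) := by exact_mod_cast hk0
  refine ⟨by rw [hcnt]; exact Nat.mul_pos hk0 hq, ?_, ?_⟩
  · rw [hcnt, hk]
    push_cast
    field_simp
  · rw [div_le_iff₀ hqR]
    have hb : (PP (lvl n i) : ℝ) ≤ 27 * (q : ℝ) := by exact_mod_cast hbound
    have h4 : (0 : ℝ) < 4 ^ (Nat.size n + 1) := by positivity
    nlinarith [mul_le_mul_of_nonneg_left hb h4.le]

end Pool.Agent.H18.SC
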