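import Pool.Agent.H85.SC.Targets

/-!
# The complexity of the synthesis property: module PCE
-/

namespace Pool.Agent.H18.SC

open Pool.Agent.H85.SC Pool.Agent.H87.Synth

theorem sqrt_pr_le (m j : ℕ) (B : ℝ) (hB : 0 ≤ B) (h : (2 : ℝ) ^ (3 + j) ≤ B ^ 2) :
    Real.sqrt (pr m j) ≤ B * (3 / 2) ^ m := by
  have h1 : (pr m j : ℝ) ≤ 2 ^ (m + 3 + j) := by exact_mod_cast pr_le m j
  have h2 : (2 : ℝ) ^ m ≤ ((3 / 2 : ℝ) ^ m) ^ 2 := by
    rw [← pow_mul, mul_comm m 2, pow_mul]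
    exact pow_le_pow_left₀ (by norm_num) (by norm_num) _
  refine Real.sqrt_le_iff.mpr ⟨by positivity, h1.trans ?_⟩
  calc (2 : ℝ) ^ (m + 3 + j) = 2 ^ (3 + j) * 2 ^ m := by rw [← pow_add]; congr 1; ring
    _ ≤ B ^ 2 * ((3 / 2 : ℝ) ^ m) ^ 2 := by gcongr
    _ = (B * (3 / 2) ^ m) ^ 2 := by ring

theorem pce (h1 : T_TRP) (h2 : T_APM) (h3 : T_MUL) : T_PCE := by
  intro n i _
  obtain ⟨hK, -⟩ := h1
  obtain ⟨-, -, hinh, hing, hchi, -⟩ := h2
  obtain ⟨-, -, hadd, -, hmul, -, -, hact, -, -⟩ := h3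
  obtain ⟨K, hKn, hKc⟩ := hK (slot n i)
  obtain ⟨K', hKn', hKc'⟩ := hK (slot n i - 1)
  set m := lvl n i with hm
  have hs0 := sqrt_pr_le m 0 3 (by norm_num) (by norm_num)
  have hs1 := sqrt_pr_le m 1 4 (by norm_num) (by norm_num)
  have hs2 := sqrt_pr_le m 2 6 (by norm_num) (by norm_num)
  have hp : ‖K + K'‖ ≤ 4 := (norm_add_le _ _).trans (by linarith)
  have hq : ‖K - K'‖ ≤ 4 := (norm_sub_le _ _).trans (by linarith)
  have key : ∀ (P : ℤ → Prop), MulB (ind P) 1 → ∀ G : L1, ‖G‖ ≤ 4 → ∀ s : ℤ, s = 1 ∨ s = -1 →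
      ∃ x : L1, ‖x‖ ≤ 20 * (3 / 4) ^ m ∧ ∀ z, coeff x z = (1 / 2) ^ m *
        (ind P z * (((chi m 0 z : ℂ) + chi m 1 z) / 4 * coeff G z +
          (s : ℂ) * (chi m 2 z : ℂ) / 2 * ((VV (slot n i) z : ℂ) - VV (slot n i - 1) z))) := by
    intro P hP G hG s hs
    have hA := hmul _ _ _ _ hP (hadd _ _ _ _ (hchi m 0) (hchi m 1))
    have hB := hmul _ _ _ _ hP (hchi m 2)
    obtain ⟨x1, hx1, hx1n⟩ := hact _ _ hA G
    obtain ⟨x2, hx2, hx2n⟩ := hact _ _ hB (K - K')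
    have hsn : ‖(s : ℂ)‖ = 1 := by
      rcases hs with h | h <;> simp [h]
    refine ⟨((1 / 2 : ℂ) ^ m) • ((1 / 4 : ℂ) • x1 + ((s : ℂ) / 2) • x2), ?_, ?_⟩
    · have e1 : ‖x1‖ ≤ 28 * (3 / 2) ^ m := by
        refine hx1n.trans ?_
        have : 0 ≤ 1 * (Real.sqrt (pr m 0) + Real.sqrt (pr m 1)) := by positivity
        calc 1 * (Real.sqrt (pr m 0) + Real.sqrt (pr m 1)) * ‖G‖
            ≤ 1 * (Real.sqrt (pr m 0) + Real.sqrt (pr m 1)) * 4 :=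
              mul_le_mul_of_nonneg_left hG this
          _ ≤ _ := by linarith
      have e2 : ‖x2‖ ≤ 24 * (3 / 2) ^ m := by
        refine hx2n.trans ?_
        have : 0 ≤ 1 * Real.sqrt (pr m 2) := by positivity
        calc 1 * Real.sqrt (pr m 2) * ‖K - K'‖
            ≤ 1 * Real.sqrt (pr m 2) * 4 := mul_le_mul_of_nonneg_left hq this
          _ ≤ _ := by linarith
      have e3 : ‖(1 / 4 : ℂ) • x1 + ((s : ℂ) / 2) • x2‖ ≤ 19 * (3 / 2) ^ m := by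
        refine (norm_add_le _ _).trans ?_
        rw [norm_smul, norm_smul]
        have f1 : ‖(1 / 4 : ℂ)‖ = 1 / 4 := by norm_num
        have f2 : ‖((s : ℂ) / 2)‖ = 1 / 2 := by rw [norm_div, hsn]; norm_num
        rw [f1, f2]
        linarith
      rw [norm_smul]
      have f3 : ‖((1 / 2 : ℂ) ^ m)‖ = (1 / 2) ^ m := by rw [norm_pow]; norm_num
      rw [f3]
      have hpos : (0 : ℝ) ≤ (1 / 2) ^ m := by positivity
      calc (1 / 2 : ℝ) ^ m * ‖(1 / 4 : ℂ) • x1 + ((s : ℂ) / 2) • x2‖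
          ≤ (1 / 2 : ℝ) ^ m * (19 * (3 / 2) ^ m) := mul_le_mul_of_nonneg_left e3 hpos
        _ = 19 * (3 / 4) ^ m := by
            rw [mul_left_comm, ← mul_pow]; norm_num
        _ ≤ 20 * (3 / 4) ^ m := by
            have : (0 : ℝ) ≤ (3 / 4) ^ m := by positivity
            linarith
    · intro z
      have c1 : coeff x1 z = ind P z * ((chi m 0 z : ℂ) + chi m 1 z) * coeff G z := hx1 z
      have c2 : coeff x2 z = ind P z * (chi m 2 z : ℂ) * coeff (K - K') z := hx2 z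
      rw [coeff_smul, coeff_add, coeff_smul, coeff_smul, c1, c2, coeff_sub, hKc, hKc']
      ring
  have hsign : ((-1) ^ lg i : ℤ) = 1 ∨ ((-1) ^ lg i : ℤ) = -1 := neg_one_pow_eq_or ℤ _
  by_cases hi : i = 2 ^ lg i
  · obtain ⟨x, hx, hxc⟩ := key (inh n) (hinh n) (K + K') hp _ hsign
    refine ⟨x, hx, fun z => ?_⟩
    rw [hxc z, pm, if_pos hi, coeff_add, hKc, hKc']
    push_cast
    ring
  · obtain ⟨x, hx, hxc⟩ := key (ing n) (hing n) (K - K') hq _ hsign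
    refine ⟨x, hx, fun z => ?_⟩
    rw [hxc z, pm, if_neg hi, coeff_sub, hKc, hKc']
    push_cast
    ring

end Pool.Agent.H18.SC
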